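import Pool.Agent.Lib.FS37.Graph

/-! The choice of the columns and of the private vertices. -/

set_option autoImplicit false

namespace Pool.Agent.Lib.FS37

open Finset
open scoped Classical

variable {n T : ℕ} {U : Finset (Fin n)} (W : Finset (Fin n)) (A : U → Fin n → Prop) (u : U)
  (r : Fin n → Option (U × Fin T))

/-- columns that the row `u` sees changed -/
noncomputable def JJ : Finset (Fin n) := W.filter fun j => A u j ∧ r j = none
/-- the blocks of the row `u` -/
noncomputable def YY (t : Option (Fin T)) : Finset (Fin n) :=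
  W.filter fun j => ¬ A u j ∧ r j = t.map (Prod.mk u)
/-- the union of the blocks -/
noncomputable def ZZ : Finset (Fin n) :=
  W.filter fun j => ¬ A u j ∧ ∃ t : Option (Fin T), r j = t.map (Prod.mk u)
/-- private vertices of lower rows on the same side -/
def lower (s : Finset (Fin n)) : Set (Fin n) :=
  {v | v ∈ W ∧ ∃ q, r v = some q ∧ q.1.1 < u.1 ∧ (u.1 ∈ s ↔ q.1.1 ∈ s)}
/-- the part of the view of `u` outside `JJ` -/
def BB (s : Finset (Fin n)) (X : Set (Fin n)) (ζ : Finset (Fin n)) : Set (Fin n) :=
  X ∪ lower W u r s ∪ {j | j ∈ ZZ W A u r ∧ (j ∈ ζ ↔ u.1 ∈ s)}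
/-- the swap of two colours outside `A u` -/
noncomputable def sw (t : Option (Fin T)) : Fin n → Option (U × Fin T) :=
  fun j => if A u j then r j else Equiv.swap none (t.map (Prod.mk u)) (r j)

theorem sw_inj (t : Option (Fin T)) : Function.Injective fun r => sw A u r t := by
  intro r r' e
  funext j
  have := congrFun e j
  simp only [sw] at this
  split_ifs at this
  · exact this
  · exact (Equiv.injective _) this

theorem sw_J (t : Option (Fin T)) : JJ W A u (sw A u r t) = JJ W A u r :=
  filter_congr fun j _ => and_congr_right fun h => by rw [sw, if_pos h]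

theorem sw_Y (t : Option (Fin T)) : YY W A u (sw A u r t) t = YY W A u r none :=
  filter_congr fun j _ => and_congr_right fun h => by
    rw [sw, if_neg h, Equiv.swap_apply_eq_iff, Equiv.swap_apply_right, Option.map_none]

theorem sw_Z (t : Option (Fin T)) : ZZ W A u (sw A u r t) = ZZ W A u r :=
  filter_congr fun j _ => and_congr_right fun h => by
    rw [sw, if_neg h, Equiv.swap_apply_def]
    split_ifs with h1 h2
    · exact ⟨fun _ => ⟨none, h1⟩, fun _ => ⟨t, rfl⟩⟩
    · exact ⟨fun _ => ⟨t, h2⟩, fun _ => ⟨none, rfl⟩⟩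
    · rfl

theorem sw_lower (t : Option (Fin T)) (s : Finset (Fin n)) :
    lower W u (sw A u r t) s = lower W u r s := by
  ext v
  refine and_congr_right fun _ => exists_congr fun q => and_congr_left fun h => ?_
  rw [sw]
  split_ifs
  · rfl
  · rw [Equiv.swap_apply_eq_iff, Equiv.swap_apply_of_ne_of_ne (Option.some_ne_none q)]
    intro e
    cases t with
    | none => exact Option.some_ne_none q e
    | some t =>
      have : q = (u, t) := Option.some.inj e
      rw [this] at h
      exact lt_irrefl _ h.1

theorem colour {K a : ℕ} (s : Finset (Fin n)) (X : U → Set (Fin n))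
    (σ : U → Finset (Fin n) → Set (Fin n) → Fin (2 ^ K)) (hU : 1 ≤ U.card)
    (hT : 4 * U.card ^ 2 * K ≤ T) (hW : W.card = 2 * (U.card * T + 1) * (a + 2)) :
    ∃ r : Fin n → Option (U × Fin T), a ≤ (W.filter fun j => r j = none).card ∧
      (W.filter fun j => r j = none).card ≤ 3 * a + 8 ∧ ∀ u, ¬ Bad (2 * U.card) (ZZ W A u r)
        (fun ζ => σ u (JJ W A u r) (BB W A u r s (X u) ζ)) (YY W A u r none) := by
  set P : U → (Fin n → Option (U × Fin T)) → Option (Fin T) → Prop := fun u r t =>
    Bad (2 * U.card) (ZZ W A u r) (fun ζ => σ u (JJ W A u r) (BB W A u r s (X u) ζ))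
      (YY W A u r t) with hP
  set N := Fintype.card (Fin n → Option (U × Fin T)) with hN
  have h1 : ∀ u, (T + 1) * (univ.filter fun r => P u r none).card ≤ N * (2 * U.card * K) := by
    intro u
    have := swaps (P u) none (fun t r => sw A u r t) (sw_inj A u) (fun t r h => by
      simp only [hP, BB, sw_J, sw_Y, sw_Z, sw_lower] at h ⊢
      exact h) (B := 2 * U.card * K) fun r =>
        blocks (by omega) (YY W A u r) (ZZ W A u r) (fun j => by
          simp only [YY, ZZ, mem_filter]
          tauto) (fun t t' j h h' => Option.map_injective (Prod.mk_right_injective u)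
            ((mem_filter.1 h).2.2.symm.trans (mem_filter.1 h').2.2)) _
    rwa [Fintype.card_option, Fintype.card_fin] at this
  have h2 := tails (none : Option (U × Fin T)) W (a := a) (by
    rw [hW, Fintype.card_option, Fintype.card_prod, Fintype.card_coe, Fintype.card_fin])
  by_contra hc
  set D := univ.filter fun r : Fin n → Option (U × Fin T) =>
    ¬ (a ≤ (W.filter fun j => r j = none).card ∧ (W.filter fun j => r j = none).card ≤ 3 * a + 8)
    with hD
  have h2' : 2 * D.card ≤ N := h2
  have h3 : N ≤ D.card + ∑ u, (univ.filter fun r => P u r none).card := by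
    refine le_trans (card_le_card (t := D ∪ univ.biUnion fun u => univ.filter fun r => P u r none)
      fun r _ => ?_) ((card_union_le _ _).trans (Nat.add_le_add_left card_biUnion_le _))
    by_cases h : r ∈ D
    · exact mem_union_left _ h
    · have h' := not_not.1 (mt (fun x => mem_filter.2 ⟨mem_univ r, x⟩) h)
      obtain ⟨u, hu⟩ := not_forall.1 fun x => hc ⟨r, h'.1, h'.2, x⟩
      exact mem_union_right _ (mem_biUnion.2 ⟨u, mem_univ _, mem_filter.2 ⟨mem_univ _, not_not.1 hu⟩⟩)
  have h4 := sum_le_card_nsmul univ _ _ fun u _ => h1 u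
  rw [← mul_sum, card_univ, Fintype.card_coe, smul_eq_mul] at h4
  have N0 : 0 < N := Fintype.card_pos
  set S := ∑ u, (univ.filter fun r => P u r none).card
  have h5 : N ≤ 2 * S := by omega
  have h6 : (T + 1) * N ≤ T * N := by
    calc (T + 1) * N ≤ (T + 1) * (2 * S) := Nat.mul_le_mul_left _ h5
      _ = 2 * ((T + 1) * S) := by ring
      _ ≤ 2 * (U.card * (N * (2 * U.card * K))) := Nat.mul_le_mul_left _ h4
      _ = 4 * U.card ^ 2 * K * N := by ring
      _ ≤ T * N := Nat.mul_le_mul_right _ hT
  have := Nat.le_of_mul_le_mul_right h6 N0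
  omega

end Pool.Agent.Lib.FS37
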