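import Pool.Agent.Lib.FS37.Defs

/-! Counting lemmas: traces on blocks, a colour swap, two tails. -/

set_option autoImplicit false

namespace Pool.Agent.Lib.FS37

open Finset
open scoped Classical

variable {n : ℕ}

/-- no class of `ψ` has almost all traces on `Y` -/
def Bad {K : ℕ} (M : ℕ) (Z : Finset (Fin n)) (ψ : Finset (Fin n) → Fin (2 ^ K))
    (Y : Finset (Fin n)) : Prop :=
  ∀ κ, (((Z.powerset.filter fun ζ => ψ ζ = κ).image (· ∩ Y)).card : ℝ) <
    (1 - 1 / M) * 2 ^ Y.card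

theorem half_pow {M : ℕ} (hM : 1 ≤ M) : (1 - 1 / (M : ℝ)) ^ M ≤ 1 / 2 := by
  have h0 : (1 : ℝ) ≤ M := by exact_mod_cast hM
  have h1 : (0 : ℝ) < 1 / M := by positivity
  have h2 : 1 / (M : ℝ) ≤ 1 := (div_le_one (by linarith)).2 h0
  have h3 := one_add_mul_le_pow (a := 1 / (M : ℝ)) (by linarith) M
  rw [mul_one_div_cancel (by linarith)] at h3
  have h4 : (1 - 1 / (M : ℝ)) ^ M * (1 + 1 / (M : ℝ)) ^ M ≤ 1 := by
    rw [← mul_pow]
    exact pow_le_one₀ (by nlinarith) (by nlinarith)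
  have h5 : 0 ≤ (1 - 1 / (M : ℝ)) ^ M := pow_nonneg (by linarith) _
  nlinarith

theorem blocks {K M : ℕ} (hM : 2 ≤ M) {τ : Type} [Fintype τ] (Y : τ → Finset (Fin n))
    (Z : Finset (Fin n)) (hZ : ∀ j, j ∈ Z ↔ ∃ t, j ∈ Y t)
    (hd : ∀ t t' j, j ∈ Y t → j ∈ Y t' → t = t') (ψ : Finset (Fin n) → Fin (2 ^ K)) :
    (univ.filter fun t => Bad M Z ψ (Y t)).card ≤ M * K := by
  obtain ⟨κ, -, hκ⟩ : ∃ κ ∈ (univ : Finset (Fin (2 ^ K))),
      2 ^ Z.card ≤ 2 ^ K * (Z.powerset.filter fun ζ => ψ ζ = κ).card := by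
    refine exists_le_of_sum_le univ_nonempty (le_of_eq ?_)
    rw [← mul_sum, ← card_eq_sum_card_fiberwise fun _ _ => mem_coe.2 (mem_univ _), sum_const,
      card_univ, Fintype.card_fin, card_powerset, smul_eq_mul]
  set Ω := Z.powerset.filter fun ζ => ψ ζ = κ with hΩ
  have h1 : Ω.card ≤ ∏ t, (Ω.image (· ∩ Y t)).card := by
    rw [← Fintype.card_piFinset]
    refine card_le_card_of_injOn (fun ζ t => ζ ∩ Y t) (fun ζ hζ => ?_) fun ζ hζ ζ' hζ' e => ?_
    · exact mem_coe.2 (Fintype.mem_piFinset.2 fun t => mem_image_of_mem _ hζ)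
    · have s1 := mem_powerset.1 (mem_filter.1 hζ).1
      have s2 := mem_powerset.1 (mem_filter.1 hζ').1
      ext j
      refine ⟨fun h => ?_, fun h => ?_⟩
      · obtain ⟨t, ht⟩ := (hZ j).1 (s1 h)
        have : ζ ∩ Y t = ζ' ∩ Y t := congrFun e t
        exact (mem_inter.1 (this ▸ mem_inter.2 ⟨h, ht⟩)).1
      · obtain ⟨t, ht⟩ := (hZ j).1 (s2 h)
        have : ζ' ∩ Y t = ζ ∩ Y t := (congrFun e t).symm
        exact (mem_inter.1 (this ▸ mem_inter.2 ⟨h, ht⟩)).1
  have h2 : Z.card = ∑ t, (Y t).card := by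
    rw [← card_biUnion fun t _ t' _ h => disjoint_left.2 fun j a b => h (hd t t' j a b)]
    congr 1
    ext j
    simp [hZ]
  have m0 : (2 : ℝ) ≤ M := by exact_mod_cast hM
  have m1 : (0 : ℝ) < 1 / M := by positivity
  have m2 : 1 / (M : ℝ) ≤ 1 / 2 := one_div_le_one_div_of_le (by norm_num) m0
  set θ : ℝ := 1 - 1 / M with hθ
  have h3 : ∏ t, ((Ω.image (· ∩ Y t)).card : ℝ) ≤
      ∏ t, (if Bad M Z ψ (Y t) then θ else 1) * 2 ^ (Y t).card := by
    refine prod_le_prod (fun _ _ => Nat.cast_nonneg _) fun t _ => ?_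
    split_ifs with h
    · exact (h κ).le
    · rw [one_mul]
      have : (Ω.image (· ∩ Y t)).card ≤ 2 ^ (Y t).card := by
        rw [← card_powerset]
        exact card_le_card (image_subset_iff.2 fun ζ _ => mem_powerset.2 inter_subset_right)
      exact_mod_cast this
  rw [prod_mul_distrib, prod_pow_eq_pow_sum, ← h2, prod_ite, prod_const, prod_const_one,
    mul_one] at h3
  set b := (univ.filter fun t => Bad M Z ψ (Y t)).card with hb
  have h4 : (2 : ℝ) ^ Z.card ≤ 2 ^ K * (θ ^ b * 2 ^ Z.card) := by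
    have a1 : (2 : ℝ) ^ Z.card ≤ 2 ^ K * Ω.card := by exact_mod_cast hκ
    have a2 : (Ω.card : ℝ) ≤ ∏ t, ((Ω.image (· ∩ Y t)).card : ℝ) := by exact_mod_cast h1
    exact a1.trans (mul_le_mul_of_nonneg_left (a2.trans h3) (by positivity))
  have h5 : 1 ≤ 2 ^ K * θ ^ b := by
    rw [← mul_assoc] at h4
    exact le_of_mul_le_mul_right (by rwa [one_mul]) (by positivity : (0 : ℝ) < 2 ^ Z.card)
  by_contra hc
  rw [not_le] at hc
  have t0 : 0 < θ := by linarith
  have h6 : θ ^ b < θ ^ (M * K) := pow_lt_pow_right_of_lt_one₀ t0 (by linarith) hc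
  have h7 : θ ^ (M * K) ≤ (1 / 2) ^ K := by
    rw [pow_mul]
    exact pow_le_pow_left₀ (by positivity) (half_pow (by omega)) _
  have h8 : (2 : ℝ) ^ K * (1 / 2) ^ K = 1 := by rw [← mul_pow]; norm_num
  have h9 := mul_lt_mul_of_pos_left (h6.trans_le h7) (by positivity : (0 : ℝ) < 2 ^ K)
  linarith

theorem swaps {Ω τ : Type} [Fintype Ω] [Fintype τ] (P : Ω → τ → Prop) (t₀ : τ) (s : τ → Ω → Ω)
    (hs : ∀ t, Function.Injective (s t)) (h : ∀ t r, P r t₀ → P (s t r) t) {B : ℕ}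
    (hB : ∀ r, (univ.filter fun t => P r t).card ≤ B) :
    Fintype.card τ * (univ.filter fun r => P r t₀).card ≤ Fintype.card Ω * B := by
  have h1 := card_nsmul_le_sum univ (fun t => (univ.filter fun r => P r t).card)
    (univ.filter fun r => P r t₀).card fun t _ =>
      card_le_card_of_injOn (s t) (fun r hr => mem_coe.2 (mem_filter.2
        ⟨mem_univ _, h t r (mem_filter.1 (mem_coe.1 hr)).2⟩)) (hs t).injOn
  have h2 : ∑ t, (univ.filter fun r => P r t).card = ∑ r, (univ.filter fun t => P r t).card := by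
    simp only [card_filter]
    exact sum_comm
  have h3 := sum_le_card_nsmul univ (fun r => (univ.filter fun t => P r t).card) B
    fun r _ => hB r
  rw [card_univ, smul_eq_mul] at h1 h3
  omega

theorem genf {C : Type} [Fintype C] [DecidableEq C] (o : C) (W : Finset (Fin n)) (x : ℝ) :
    ∑ r : Fin n → C, x ^ (W.filter fun j => r j = o).card =
      ∏ j : Fin n, if j ∈ W then (Fintype.card C : ℝ) - 1 + x else Fintype.card C := by
  have e : ∀ r : Fin n → C, x ^ (W.filter fun j => r j = o).card =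
      ∏ j, if j ∈ W ∧ r j = o then x else 1 := fun r => by
    rw [prod_ite, prod_const, prod_const_one, mul_one]
    congr 2
    ext j
    simp
  rw [sum_congr rfl fun r _ => e r, ← Fintype.piFinset_univ,
    ← prod_univ_sum (fun _ => univ) fun j c => if j ∈ W ∧ c = o then x else 1]
  refine prod_congr rfl fun j _ => ?_
  by_cases hj : j ∈ W
  · have : ∀ c : C, (if j ∈ W ∧ c = o then x else 1) = 1 + if c = o then x - 1 else 0 := by
      intro c
      by_cases h : c = o <;> simp [hj, h]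
    rw [sum_congr rfl fun c _ => this c, sum_add_distrib, sum_ite_eq', if_pos (mem_univ _),
      if_pos hj, sum_const, card_univ, nsmul_eq_mul, mul_one]
    ring
  · simp [hj]

theorem genle {C : Type} [Fintype C] [DecidableEq C] (o : C) (W : Finset (Fin n)) {x : ℝ} (hx : 0 ≤ x) :
    ∑ r : Fin n → C, x ^ (W.filter fun j => r j = o).card ≤
      Real.exp ((x - 1) / Fintype.card C) ^ W.card * Fintype.card (Fin n → C) := by
  have c1 : (1 : ℝ) ≤ Fintype.card C := by
    exact_mod_cast Fintype.card_pos_iff.2 ⟨o⟩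
  rw [genf]
  have : ∏ j : Fin n, (if j ∈ W then Real.exp ((x - 1) / Fintype.card C) else 1) *
      (Fintype.card C : ℝ) = Real.exp ((x - 1) / Fintype.card C) ^ W.card *
        Fintype.card (Fin n → C) := by
    rw [prod_mul_distrib, prod_ite, prod_const, prod_const_one, mul_one, prod_const, card_univ,
      filter_mem_eq_inter, univ_inter, Fintype.card_fun, Nat.cast_pow]
  rw [← this]
  refine prod_le_prod (fun j _ => by split_ifs <;> linarith) fun j _ => ?_
  split_ifs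
  · have h1 := Real.add_one_le_exp ((x - 1) / Fintype.card C)
    have h2 := mul_le_mul_of_nonneg_right h1 (by linarith : (0 : ℝ) ≤ Fintype.card C)
    rw [add_mul, div_mul_cancel₀ _ (by linarith)] at h2
    linarith
  · rw [one_mul]

theorem tails {C : Type} [Fintype C] [DecidableEq C] (o : C) (W : Finset (Fin n)) {a : ℕ}
    (hW : W.card = 2 * Fintype.card C * (a + 2)) :
    2 * (univ.filter fun r : Fin n → C => ¬ (a ≤ (W.filter fun j => r j = o).card ∧
      (W.filter fun j => r j = o).card ≤ 3 * a + 8)).card ≤ Fintype.card (Fin n → C) := by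
  have c1 : (0 : ℝ) < Fintype.card C := by
    exact_mod_cast Fintype.card_pos_iff.2 ⟨o⟩
  set k : (Fin n → C) → ℕ := fun r => (W.filter fun j => r j = o).card with hk
  set N : ℝ := ((Fintype.card (Fin n → C) : ℕ) : ℝ) with hN
  have N0 : 0 ≤ N := Nat.cast_nonneg _
  have e1 : (2 : ℝ) ≤ Real.exp 1 := by linarith [Real.add_one_le_exp 1]
  have e2 : Real.exp 2 ≤ 8 := by
    have := Real.exp_one_lt_d9
    have h : Real.exp 2 = Real.exp 1 * Real.exp 1 := by rw [← Real.exp_add]; norm_num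
    rw [h]
    nlinarith
  have g1 : ∑ r, (1 / 2 : ℝ) ^ k r ≤ (1 / 2) ^ (a + 2) * N := by
    refine (genle o W (by norm_num)).trans (mul_le_mul_of_nonneg_right ?_ N0)
    rw [hW, pow_mul, ← Real.exp_nat_mul]
    refine pow_le_pow_left₀ (Real.exp_pos _).le ?_ _
    have : ((2 * Fintype.card C : ℕ) : ℝ) * ((1 / 2 - 1) / Fintype.card C) = -1 := by
      push_cast; field_simp; ring
    rw [this, Real.exp_neg, ← one_div]
    exact one_div_le_one_div_of_le (by norm_num) e1
  have g2 : ∑ r, (2 : ℝ) ^ k r ≤ 8 ^ (a + 2) * N := by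
    refine (genle o W (by norm_num)).trans (mul_le_mul_of_nonneg_right ?_ N0)
    rw [hW, pow_mul, ← Real.exp_nat_mul]
    refine pow_le_pow_left₀ (Real.exp_pos _).le ?_ _
    have : ((2 * Fintype.card C : ℕ) : ℝ) * ((2 - 1) / Fintype.card C) = 2 := by
      push_cast; field_simp; ring
    rwa [this]
  have g3 : ∑ r, (if ¬ (a ≤ k r ∧ k r ≤ 3 * a + 8) then (1 : ℝ) else 0) ≤
      ∑ r, (2 ^ a * (1 / 2) ^ k r + (1 / 2) ^ (3 * a + 8) * 2 ^ k r) := by
    refine sum_le_sum fun r _ => ?_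
    have p1 : (0 : ℝ) ≤ 2 ^ a * (1 / 2) ^ k r := by positivity
    have p2 : (0 : ℝ) ≤ (1 / 2) ^ (3 * a + 8) * 2 ^ k r := by positivity
    split_ifs with h
    · positivity
    · rcases not_and_or.1 h with h | h
      · have : (1 : ℝ) ≤ 2 ^ a * (1 / 2) ^ k r := by
          rw [one_div, inv_pow, ← div_eq_mul_inv, one_le_div (by positivity)]
          exact pow_le_pow_right₀ (by norm_num) (by omega)
        linarith
      · have : (1 : ℝ) ≤ (1 / 2) ^ (3 * a + 8) * 2 ^ k r := by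
          rw [one_div, inv_pow, ← div_eq_inv_mul, one_le_div (by positivity)]
          exact pow_le_pow_right₀ (by norm_num) (by omega)
        linarith
  rw [sum_boole, sum_add_distrib, ← mul_sum, ← mul_sum] at g3
  have g4 := mul_le_mul_of_nonneg_left g1 (by positivity : (0 : ℝ) ≤ 2 ^ a)
  have g5 := mul_le_mul_of_nonneg_left g2 (by positivity : (0 : ℝ) ≤ (1 / 2) ^ (3 * a + 8))
  have g6 : (2 : ℝ) ^ a * ((1 / 2) ^ (a + 2) * N) = N / 4 := by
    rw [pow_add, ← mul_assoc, ← mul_assoc, ← mul_pow]; norm_num; ring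
  have g7 : (1 / 2 : ℝ) ^ (3 * a + 8) * (8 ^ (a + 2) * N) = N / 4 := by
    have : (1 / 2 : ℝ) ^ (3 * a + 8) * 8 ^ (a + 2) = ((1 / 2) ^ 3 * 8) ^ a * (1 / 4) := by
      rw [pow_add, pow_add, pow_mul, mul_pow]; ring
    rw [← mul_assoc, this]; norm_num; ring
  have : 2 * ((univ.filter fun r => ¬ (a ≤ k r ∧ k r ≤ 3 * a + 8)).card : ℝ) ≤ N := by linarith
  rw [hN] at this
  exact_mod_cast this

theorem miss (S Y : Finset (Fin n)) (hY : Y ⊆ S) (Γ : Finset (Finset (Fin n)))
    (hΓ : Γ ⊆ Y.powerset) {δ : ℝ} (h : (1 - δ) * 2 ^ Y.card ≤ Γ.card) :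
    ((S.powerset.filter fun y => y ∩ Y ∉ Γ).card : ℝ) ≤ δ * 2 ^ S.card := by
  have h1 : (S.powerset.filter fun y => y ∩ Y ∉ Γ).card ≤
      ((Y.powerset \ Γ) ×ˢ (S \ Y).powerset).card := by
    refine card_le_card_of_injOn (fun y => (y ∩ Y, y \ Y)) (fun y hy => ?_) fun y _ y' _ e => ?_
    · obtain ⟨a, b⟩ := mem_filter.1 (mem_coe.1 hy)
      exact mem_coe.2 (mem_product.2 ⟨mem_sdiff.2 ⟨mem_powerset.2 inter_subset_right, b⟩,
        mem_powerset.2 (sdiff_subset_sdiff (mem_powerset.1 a) Subset.rfl)⟩)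
    · obtain ⟨a, b⟩ := Prod.mk.inj e
      rw [← sdiff_union_inter y Y, a, b, sdiff_union_inter]
  rw [card_product, card_powerset] at h1
  have h2 := card_sdiff_add_card_eq_card hΓ
  have h3 := card_sdiff_add_card_eq_card hY
  rw [card_powerset] at h2
  have h4 : ((Y.powerset \ Γ).card : ℝ) + Γ.card = 2 ^ Y.card := by exact_mod_cast h2
  have h5 : ((S.powerset.filter fun y => y ∩ Y ∉ Γ).card : ℝ) ≤
      (Y.powerset \ Γ).card * 2 ^ (S \ Y).card := by exact_mod_cast h1
  rw [← h3, pow_add, mul_comm (2 ^ _ : ℝ), ← mul_assoc]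
  exact h5.trans (mul_le_mul_of_nonneg_right (by linarith) (by positivity))

end Pool.Agent.Lib.FS37
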