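import Pool.Agent.Lib.MP_07573f_lc.Defs

/-! Message functions with few sections on small vertex sets. -/

set_option autoImplicit false

namespace Pool.Agent.Lib.FS37

/-- The message function `φ` of vertex `u` has at most `2 ^ K` sections on every set `W` of at
most `k` other vertices: a `K`-bit summary `σ` of the part `B ∋ u` of the input outside `W`
determines the map `A ↦ φ (A ∪ B)` on subsets `A` of `W`. -/
def FewSec {n : ℕ} (k K : ℕ) (u : Fin n) (φ : Set (Fin n) → List Bool) : Prop :=
  ∀ W : Finset (Fin n), W.card ≤ k → u ∉ W → ∃ σ : Set (Fin n) → Fin (2 ^ K),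
    ∀ A B B' : Set (Fin n), A ⊆ W → Disjoint B W → Disjoint B' W → u ∈ B → u ∈ B' →
      σ B = σ B' → φ (A ∪ B) = φ (A ∪ B')

end Pool.Agent.Lib.FS37
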