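import Pool.Agent.Lib.FS37.Count
import Pool.Agent.Lib.MP_07573f_lc.Main

/-! Two threshold graphs side by side, and the choice of types. -/

set_option autoImplicit false

namespace Pool.Agent.Lib.FS37

open SimpleGraph Pool.Agent.Lib.MP_07573f_lc
open scoped Classical

variable {n : ℕ}

/-- two cliques on `R`, an independent set outside, joined by `e` -/
def th (R : Set (Fin n)) (sd : Fin n → Prop) (e : Fin n → Fin n → Prop) :
    SimpleGraph (Fin n) where
  Adj u v := u ≠ v ∧ ((u ∈ R ∧ v ∈ R ∧ (sd u ↔ sd v)) ∨ (u ∈ R ∧ v ∉ R ∧ e u v) ∨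
    (v ∈ R ∧ u ∉ R ∧ e v u))
  symm := ⟨fun _ _ h => ⟨h.1.symm, by have := h.2; tauto⟩⟩
  loopless := ⟨fun _ h => h.1 rfl⟩

variable {R : Set (Fin n)} {sd : Fin n → Prop} {e : Fin n → Fin n → Prop} {u v : Fin n}

theorem th_RR (h : u ∈ R) (h' : v ∈ R) (hn : u ≠ v) : (th R sd e).Adj u v ↔ (sd u ↔ sd v) := by
  simp [th, h, h', hn]

theorem th_RN (h : u ∈ R) (h' : v ∉ R) : (th R sd e).Adj u v ↔ e u v := by
  have : u ≠ v := fun a => h' (a ▸ h)
  simp [th, h, h', this]

theorem th_NN (h : u ∉ R) (h' : v ∉ R) : ¬ (th R sd e).Adj u v := by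
  simp [th, h, h']

theorem th_row (h : u ∈ R) :
    closedNb (th R sd e) u = {v | (v ∈ R ∧ (sd u ↔ sd v)) ∨ (v ∉ R ∧ e u v)} := by
  ext v
  by_cases hv : v = u
  · subst hv; simp [closedNb, h]
  · simp [closedNb, th, h, hv, Ne.symm hv]

theorem th_col (h : v ∉ R) : closedNb (th R sd e) v = insert v {u | u ∈ R ∧ e u v} := by
  ext u
  by_cases hu : u = v
  · subst hu; simp [closedNb]
  · simp [closedNb, th, h, hu, Ne.symm hu]

theorem th_free (R : Set (Fin n)) (sd p : Fin n → Prop) (t ρ : Fin n → ℕ) :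
    ¬ Nonempty (pathGraph 4 ↪g th R sd fun u v => (sd u ↔ p v) ∧ t v ≤ ρ u) := by
  rintro ⟨φ⟩
  have h1 := (φ.map_adj_iff (v := 0) (w := 1)).2 (by rw [pathGraph_adj]; decide)
  have h2 := (φ.map_adj_iff (v := 1) (w := 2)).2 (by rw [pathGraph_adj]; decide)
  have h3 := (φ.map_adj_iff (v := 2) (w := 3)).2 (by rw [pathGraph_adj]; decide)
  have h4 := mt (φ.map_adj_iff (v := 0) (w := 2)).1 (by rw [pathGraph_adj]; decide)
  have h5 := mt (φ.map_adj_iff (v := 1) (w := 3)).1 (by rw [pathGraph_adj]; decide)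
  have n1 : φ 0 ≠ φ 2 := φ.injective.ne (by decide)
  have n2 : φ 1 ≠ φ 3 := φ.injective.ne (by decide)
  generalize φ 0 = a at *
  generalize φ 1 = b at *
  generalize φ 2 = c at *
  generalize φ 3 = d at *
  have hb : b ∈ R := by
    by_contra hb
    have ha : a ∈ R := by_contra fun ha => th_NN ha hb h1
    have hc : c ∈ R := by_contra fun hc => th_NN hb hc h2
    exact h4 ((th_RR ha hc n1).2
      (((th_RN ha hb).1 h1).1.trans ((th_RN hc hb).1 h2.symm).1.symm))
  have hc : c ∈ R := by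
    by_contra hc
    have hd : d ∈ R := by_contra fun hd => th_NN hc hd h3
    exact h5 ((th_RR hb hd n2).2
      (((th_RN hb hc).1 h2).1.trans ((th_RN hd hc).1 h3.symm).1.symm))
  have bc := (th_RR hb hc h2.ne).1 h2
  have ha : a ∉ R := fun ha => h4 ((th_RR ha hc n1).2 (((th_RR ha hb h1.ne).1 h1).trans bc))
  have hd : d ∉ R := fun hd => h5 ((th_RR hb hd n2).2 (bc.trans ((th_RR hc hd h3.ne).1 h3)))
  have q1 := (th_RN hb ha).1 h1.symm
  have q2 := (th_RN hc hd).1 h3
  have q3 : ¬ t a ≤ ρ c := fun h => h4 ((th_RN hc ha).2 ⟨bc.symm.trans q1.1, h⟩).symm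
  have q4 : ¬ t d ≤ ρ b := fun h => h5 ((th_RN hb hd).2 ⟨bc.trans q2.1, h⟩)
  have := q1.2
  have := q2.2
  omega

variable {L : ℕ} {f : Fin n → Set (Fin n) → List Bool} {g : (Fin n → List Bool) → Bool}

theorem len (h : SolvesP4 f g L) {u : Fin n} {X : Set (Fin n)} (hu : u ∈ X) :
    code (f u X) < 2 ^ (L + 1) := by
  have h1 := (h (bip {u} fun _ v => v ∈ X)).1 u
  have e : closedNb (bip {u} fun _ v => v ∈ X) u = X := by
    rw [nb_row (Set.mem_singleton u)]
    ext v
    by_cases hv : v = u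
    · simp [hv, hu]
    · simp [hv]
  rw [e] at h1
  exact (code_lt _).trans_le (Nat.pow_le_pow_right (by omega) (by omega))

theorem types (h : SolvesP4 f g L) (U W : Finset (Fin n)) (hU : U.card = 2 * L + 3)
    (R : Set (Fin n)) (a1 : Fin n) :
    ∃ s ⊆ U, ∃ W' ⊆ W, W.card ≤ 2 * W'.card ∧ ∃ s' : Fin n → Finset (Fin n), (∀ w, s' w ⊆ U) ∧
      (∀ w ∈ W', s' w ≠ s) ∧ ∀ w (p : Prop),
        f w (insert w {u | u ∈ R ∧ (u ∈ s' w ∨ u = a1 ↔ p)}) =
          f w (insert w {u | u ∈ R ∧ (u ∈ s ∨ u = a1 ↔ p)}) := by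
  set cn : Fin n → Finset (Fin n) → Prop → Set (Fin n) := fun w x p =>
    insert w {u | u ∈ R ∧ (u ∈ x ∨ u = a1 ↔ p)} with hcn
  set κ : Fin n → Finset (Fin n) → ℕ × ℕ := fun w x =>
    (code (f w (cn w x True)), code (f w (cn w x False))) with hκ
  have hlen : ∀ w x p, code (f w (cn w x p)) < 2 ^ (L + 1) := fun w x p =>
    len h (Set.mem_insert _ _)
  set lone : Fin n → Finset (Fin n) → Prop := fun w x => ∀ x' ⊆ U, κ w x' = κ w x → x' = x
    with hlone
  have c1 : ∀ w ∈ W, (U.powerset.filter fun x => lone w x).card ≤ 2 ^ (L + 1) * 2 ^ (L + 1) := by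
    intro w _
    have : (Finset.range (2 ^ (L + 1)) ×ˢ Finset.range (2 ^ (L + 1))).card =
        2 ^ (L + 1) * 2 ^ (L + 1) := by simp
    rw [← this]
    refine Finset.card_le_card_of_injOn (κ w) (fun x _ => ?_) fun x hx x' hx' e => ?_
    · simp only [hκ, Finset.coe_product, Finset.coe_range, Set.mem_prod, Set.mem_Iio]
      exact ⟨hlen w _ _, hlen w _ _⟩
    · simp only [Finset.coe_filter, Finset.mem_powerset, Set.mem_ofPred_eq] at hx hx'
      exact hx'.2 x hx.1 e
  obtain ⟨s, hs, c2⟩ : ∃ s ∈ U.powerset, 2 * (W.filter fun w => lone w s).card ≤ W.card := by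
    refine Finset.exists_le_of_sum_le ⟨∅, by simp⟩ ?_
    have e : ∑ x ∈ U.powerset, (W.filter fun w => lone w x).card =
        ∑ w ∈ W, (U.powerset.filter fun x => lone w x).card := by
      simp only [Finset.card_filter]
      exact Finset.sum_comm
    rw [← Finset.mul_sum, e, Finset.sum_const, Finset.card_powerset, hU, smul_eq_mul]
    have := Finset.sum_le_card_nsmul W _ _ c1
    rw [smul_eq_mul] at this
    refine (Nat.mul_le_mul_left 2 this).trans (le_of_eq ?_)
    ring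
  rw [Finset.mem_powerset] at hs
  set W' := W.filter fun w => ¬ lone w s with hW'
  have : ∀ w, ∃ x : Finset (Fin n), x ⊆ U ∧ κ w x = κ w s ∧ (w ∈ W' → x ≠ s) := fun w => by
    by_cases hw : w ∈ W'
    · have := (Finset.mem_filter.1 hw).2
      simp only [hlone, not_forall] at this
      obtain ⟨x, h1, h2, h3⟩ := this
      exact ⟨x, h1, h2, fun _ => h3⟩
    · exact ⟨s, hs, rfl, fun h => absurd h hw⟩
  choose s' p1 p2 p3 using this
  refine ⟨s, hs, W', Finset.filter_subset _ _, ?_, s', p1, p3, fun w p => ?_⟩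
  · have := Finset.card_filter_add_card_filter_not (s := W) (fun w => lone w s)
    rw [← hW'] at this
    omega
  · have := p2 w
    simp only [hκ, Prod.mk.injEq] at this
    by_cases hp : p
    · rw [eq_true hp]; exact code_inj _ _ this.1
    · rw [eq_false hp]; exact code_inj _ _ this.2

end Pool.Agent.Lib.FS37
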