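import Pool.Agent.Lib.FS37.Pick

/-! The fooling pair of graphs. -/

set_option autoImplicit false

namespace Pool.Agent.Lib.FS37

open Finset SimpleGraph Pool.Agent.Lib.MP_07573f_lc
open scoped Classical

theorem prop3 {A x z τ y s s' : Prop} (hA : A ↔ ¬ (s' ↔ s)) (hz : ¬ A → (z ↔ y))
    (h1 : (y ↔ x) → (τ ↔ s)) (h2 : ¬ (y ↔ x) → (τ ↔ s')) :
    (τ ↔ y) ↔ (A ∧ (x ↔ s)) ∨ (¬ A ∧ (z ↔ s)) := by tauto

theorem core {n L k K a T : ℕ} {f : Fin n → Set (Fin n) → List Bool}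
    {g : (Fin n → List Bool) → Bool} (h : SolvesP4 f g L) (U : Finset (Fin n))
    (hU : U.card = 2 * L + 3) (hF : ∀ u ∈ U, FewSec k K u (f u))
    (ha : (L + 1) * U.card + 2 ≤ a) (hk : 3 * a + 8 ≤ k) (hT : 4 * U.card ^ 2 * K ≤ T)
    (hn : U.card + 4 + 2 * (2 * (U.card * T + 1) * (a + 2)) ≤ n) : False := by
  obtain ⟨T4, hT4, hT4c⟩ := Finset.exists_subset_card_eq (s := Uᶜ) (n := 4)
    (by rw [Finset.card_compl, Fintype.card_fin]; omega)
  obtain ⟨a0, a1, c0, c1, d1, d2, d3, d4, d5, d6, rfl⟩ := Finset.card_eq_four.1 hT4c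
  have t1 : a0 ∉ U := Finset.mem_compl.1 (hT4 (by simp))
  have t2 : a1 ∉ U := Finset.mem_compl.1 (hT4 (by simp))
  have t3 : c0 ∉ U := Finset.mem_compl.1 (hT4 (by simp))
  have t4 : c1 ∉ U := Finset.mem_compl.1 (hT4 (by simp))
  set W0 : Finset (Fin n) := Uᶜ \ {a0, a1, c0, c1} with hW0
  have hWc : W0.card + U.card + 4 = n := by
    rw [hW0, Finset.card_sdiff_of_subset hT4, Finset.card_compl, Fintype.card_fin]; omega
  obtain ⟨R, hR⟩ : ∃ R : Set (Fin n), ∀ u, u ∈ R ↔ u ∈ U ∨ u = a0 ∨ u = a1 :=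
    ⟨{u | u ∈ U ∨ u = a0 ∨ u = a1}, fun _ => Iff.rfl⟩
  obtain ⟨s, hs, W1, hW1, hW1c, s', p1, p3, p4⟩ := types h U W0 hU R a1
  obtain ⟨W, hW, hWcard⟩ := Finset.exists_subset_card_eq (s := W1)
    (n := 2 * (U.card * T + 1) * (a + 2)) (by omega)
  have hWm : ∀ w ∈ W, w ∉ R ∧ w ≠ c0 ∧ w ≠ c1 := fun w hw => by
    have := hW1 (hW hw)
    simp only [hW0, mem_sdiff, mem_compl, mem_insert, mem_singleton, not_or] at this
    rw [hR]
    tauto
  have uR : ∀ u : U, u.1 ∈ R := fun u => (hR _).2 (Or.inl u.2)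
  have u0 : ∀ u : U, u.1 ≠ a0 := fun u e => t1 (e ▸ u.2)
  have u1 : ∀ u : U, u.1 ≠ a1 := fun u e => t2 (e ▸ u.2)
  have r0 : a0 ∈ R := (hR _).2 (Or.inr (Or.inl rfl))
  have r1 : a1 ∈ R := (hR _).2 (Or.inr (Or.inr rfl))
  have r2 : c0 ∉ R := by simp [hR, t3, d2.symm, d4.symm]
  have r3 : c1 ∉ R := by simp [hR, t4, d3.symm, d5.symm]
  obtain ⟨A, hA⟩ : ∃ A : U → Fin n → Prop, ∀ u w, A u w ↔ ¬ (u.1 ∈ s' w ↔ u.1 ∈ s) :=
    ⟨fun u w => ¬ (u.1 ∈ s' w ↔ u.1 ∈ s), fun _ _ => Iff.rfl⟩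
  set sd : Fin n → Prop := fun u => u ∈ s ∨ u = a1 with hsd
  set X : U → Set (Fin n) := fun u =>
    {v | (v ∈ R ∧ (sd u ↔ sd v)) ∨ ((v = c0 ∨ v = c1) ∧ (u.1 ∈ s ↔ v = c1))} with hX
  have hσ0 : ∀ (u : U) (V : Finset (Fin n)), ∃ σ : Set (Fin n) → Fin (2 ^ K), V.card ≤ k →
      u.1 ∉ V → ∀ B0 B B' : Set (Fin n), B0 ⊆ V → Disjoint B V → Disjoint B' V → u.1 ∈ B →
        u.1 ∈ B' → σ B = σ B' → f u (B0 ∪ B) = f u (B0 ∪ B') := fun u V => by
    by_cases hV : V.card ≤ k ∧ u.1 ∉ V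
    · obtain ⟨σ, hσ⟩ := hF u u.2 V hV.1 hV.2
      exact ⟨σ, fun _ _ => hσ⟩
    · exact ⟨fun _ => ⟨0, by positivity⟩, fun a b => absurd ⟨a, b⟩ hV⟩
  choose σ hσ using hσ0
  obtain ⟨r, k1, k2, k3⟩ := colour W A s X σ (by omega) hT hWcard
  set S := W.filter fun j => r j = none with hS
  set Jp : U → Finset (Fin n) → Set (Fin n) := fun u x =>
    {w | w ∈ JJ W A u r ∧ (w ∈ x ↔ u.1 ∈ s)} with hJp
  have uB : ∀ u ζ, u.1 ∈ BB W A u r s (X u) ζ := fun u ζ =>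
    Or.inl (Or.inl (Or.inl ⟨uR u, Iff.rfl⟩))
  obtain ⟨y, v, ζ, ξ, hy, hv, hne, hz⟩ := pick (N := L + 1) (ι := U)
    (by rw [Fintype.card_coe]; omega) S (fun u => YY W A u r none) (fun u => ZZ W A u r)
    (fun u j hj => mem_filter.2 ⟨(mem_filter.1 hj).1, (mem_filter.1 hj).2.2⟩)
    (fun u ζ => σ u (JJ W A u r) (BB W A u r s (X u) ζ)) (by rwa [Fintype.card_coe])
    (fun u x ζ => code (f u (Jp u x ∪ BB W A u r s (X u) ζ)))
    (fun u x ζ => len h (Or.inr (uB u ζ))) (by rw [Fintype.card_coe]; omega)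
  have dis : ∀ u ζ, Disjoint (BB W A u r s (X u) ζ) (JJ W A u r) := fun u ζ => by
    refine Set.disjoint_left.2 fun j hj hj' => ?_
    obtain ⟨j1, j2, j3⟩ := mem_filter.1 (mem_coe.1 hj')
    have := hWm j j1
    rcases hj with ((hj | hj) | hj) | hj
    · exact this.1 hj.1
    · exact hj.1.elim this.2.1 this.2.2
    · obtain ⟨-, q, hq, -⟩ := hj
      rw [j3] at hq
      exact Option.some_ne_none q hq.symm
    · exact (mem_filter.1 hj.1).2.1 j2
  have sec : ∀ (u : U) x, f u (Jp u x ∪ BB W A u r s (X u) (ζ u)) =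
      f u (Jp u x ∪ BB W A u r s (X u) (ξ u)) := fun u x =>
    hσ u (JJ W A u r) ((card_le_card fun j hj => mem_filter.2
      ⟨(mem_filter.1 hj).1, (mem_filter.1 hj).2.2⟩).trans (k2.trans hk))
      (fun hj => (hWm _ (mem_filter.1 hj).1).1 (uR u)) _ _ _ (fun _ hj => hj.1) (dis u _)
      (dis u _) (uB u _) (uB u _) (hz u).2.1
  obtain ⟨p, e1, e2, e3⟩ : ∃ p : Fin n → Prop, (∀ w ∈ W, r w = none → (p w ↔ w ∈ y)) ∧
      (∀ w ∈ W, ∀ q, r w = some q → (p w ↔ q.1.1 ∈ s)) ∧ ∀ w, w ∉ W → (p w ↔ w = c1) :=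
    ⟨fun w => if w ∈ W then (r w).elim (w ∈ y) fun q => q.1.1 ∈ s else w = c1,
      fun w a b => by simp [a, b], fun w a q b => by simp [a, b], fun w a => by simp [a]⟩
  obtain ⟨t, e4, e5, e6⟩ : ∃ t : Fin n → ℕ, (∀ w ∈ W, r w = none → t w = 0) ∧
      (∀ w ∈ W, ∀ q, r w = some q → t w =
        if ¬ A q.1 w ∧ (w ∈ ζ q.1 ↔ q.1.1 ∈ s) then q.1.1.val + 1 else q.1.1.val + 2) ∧
      ∀ w, w ∉ W → t w = if w = c0 ∨ w = c1 then 1 else n + 2 :=
    ⟨fun w => if w ∈ W then (r w).elim 0 fun q =>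
        if ¬ A q.1 w ∧ (w ∈ ζ q.1 ↔ q.1.1 ∈ s) then q.1.1.val + 1 else q.1.1.val + 2
      else if w = c0 ∨ w = c1 then 1 else n + 2,
      fun w a b => by simp only [if_pos a, b, Option.elim_none],
      fun w a q b => by simp only [if_pos a, b, Option.elim_some],
      fun w a => by simp only [if_neg a]⟩
  obtain ⟨ρ, e7, e8⟩ : ∃ ρ : Fin n → ℕ, (∀ u : U, ρ u = u.1.val + 1) ∧ ∀ u, u ∉ U → ρ u = 0 :=
    ⟨fun u => if u ∈ U then u.val + 1 else 0, fun u => if_pos u.2, fun u a => if_neg a⟩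
  obtain ⟨τ, e9, e10⟩ : ∃ τ : Finset (Fin n) → Fin n → Finset (Fin n),
      (∀ x w, w ∈ S → ¬ (w ∈ y ↔ w ∈ x) → τ x w = s' w) ∧
      ∀ x w, ¬ (w ∈ S ∧ ¬ (w ∈ y ↔ w ∈ x)) → τ x w = s :=
    ⟨fun x w => if w ∈ S ∧ ¬ (w ∈ y ↔ w ∈ x) then s' w else s, fun x w a b => if_pos ⟨a, b⟩,
      fun x w a => if_neg a⟩
  have τU : ∀ x w u, u ∉ U → u ∉ τ x w := fun x w u hu hh => by
    by_cases c : w ∈ S ∧ ¬ (w ∈ y ↔ w ∈ x)
    · exact hu (p1 w (e9 x w c.1 c.2 ▸ hh))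
    · exact hu (hs (e10 x w c ▸ hh))
  have τy : ∀ w, τ y w = s := fun w => e10 y w fun c => c.2 Iff.rfl
  set Gr : Finset (Fin n) → SimpleGraph (Fin n) := fun x =>
    th R sd fun u w => (u ∈ τ x w ∨ u = a1 ↔ p w) ∧ t w ≤ ρ u with hGr
  have view : ∀ (u : U) x, closedNb (Gr x) u = Jp u x ∪ BB W A u r s (X u) (ζ u) := by
    intro u x
    rw [hGr, th_row (uR u)]
    ext j
    simp only [hJp, hX, BB, lower, JJ, ZZ, mem_filter, Set.mem_union, Set.mem_ofPred_eq, u1 u,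
      or_false, e7]
    by_cases jW : j ∈ W
    · obtain ⟨j1, j2, j3⟩ := hWm j jW
      simp only [jW, j1, j2, j3, true_and, false_and, false_or, not_false_eq_true, or_self]
      cases hr : r j with
      | none =>
        have jS : j ∈ S := mem_filter.2 ⟨jW, hr⟩
        have z0 : ∃ t : Option (Fin T), none = t.map (Prod.mk u) := ⟨none, rfl⟩
        simp only [e1 j jW hr, e4 j jW hr, zero_le, and_true, reduceCtorEq, false_and,
          exists_false, false_or, z0]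
        refine prop3 (hA u j) (fun c2 => ?_) (fun c => by rw [e10 x j fun c' => c'.2 c])
          fun c => by rw [e9 x j jS c]
        have jY : j ∈ YY W A u r none := mem_filter.2 ⟨jW, c2, hr⟩
        have := Finset.ext_iff.1 (hz u).1 j
        simpa only [mem_inter, jY, and_true] using this
      | some q =>
        have jS : j ∉ S := fun c => Option.some_ne_none q (hr.symm.trans (mem_filter.1 c).2)
        have z0 : (∃ t : Option (Fin T), some q = t.map (Prod.mk u)) ↔ q.1 = u := by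
          refine ⟨fun ⟨t, ht⟩ => ?_, fun e => ⟨some q.2, by rw [← e]; rfl⟩⟩
          cases t with
          | none => exact absurd ht (Option.some_ne_none q)
          | some t => rw [Option.some.inj ht]
        simp only [e10 x j fun c => jS c.1, e2 j jW q hr, e5 j jW q hr, reduceCtorEq, and_false,
          false_and, false_or, z0, Option.some.injEq, exists_eq_left', Fin.lt_def]
        by_cases c : q.1 = u
        · rw [c]
          split_ifs with c2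
          · simp only [le_refl, lt_irrefl, false_or, and_true, c2.1, c2.2,
              not_false_eq_true]
          · have : ¬ u.1.val + 2 ≤ u.1.val + 1 := by omega
            simp only [this, lt_irrefl, false_or, and_true, and_false, c2]
        · have c3 : q.1.1.val ≠ u.1.val := fun e => c (Subtype.ext (Fin.ext e))
          simp only [c, and_false, false_and, or_false]
          rw [and_comm]
          refine and_congr_left fun _ => ?_
          split_ifs <;> omega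
    · have jS : j ∉ S := fun c => jW (mem_filter.1 c).1
      simp only [jW, false_and, false_or, or_false, e10 x j fun c => jS c.1, e3 j jW, e6 j jW]
      refine or_congr_right ?_
      by_cases c : j = c0 ∨ j = c1
      · have : j ∉ R := c.elim (fun e => e ▸ r2) fun e => e ▸ r3
        simp only [c, this, if_true, not_false_eq_true, true_and, Nat.le_add_left, and_true]
      · have : ¬ n + 2 ≤ u.1.val + 1 := by have := u.1.2; omega
        simp only [c, this, if_false, and_false, false_and]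
  have key : (fun i => f i (closedNb (Gr v) i)) = fun i => f i (closedNb (Gr y) i) := by
    funext i
    by_cases hi : i ∈ R
    · by_cases hiU : i ∈ U
      · have a1 := view ⟨i, hiU⟩ v
        have a2 := view ⟨i, hiU⟩ y
        have a3 := code_inj _ _ (hz ⟨i, hiU⟩).2.2
        exact (congrArg (f i) a1).trans ((sec ⟨i, hiU⟩ v).trans (a3.symm.trans
          ((sec ⟨i, hiU⟩ y).symm.trans (congrArg (f i) a2).symm)))
      · simp only [hGr, th_row hi, τU _ _ i hiU]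
    · by_cases c : i ∈ S ∧ ¬ (i ∈ y ↔ i ∈ v)
      · have := mem_filter.1 c.1
        simp only [hGr, th_col hi, e9 v i c.1 c.2, τy, e4 i this.1 this.2, zero_le, and_true]
        exact p4 i _
      · simp only [hGr, th_col hi, e10 v i c, τy]
  have yes : ¬ g (fun i => f i (closedNb (Gr y) i)) = true := by
    refine (h _).2.not.2 ?_
    simp only [hGr, τy]
    exact th_free R sd p t ρ
  rw [← key] at yes
  refine yes ((h _).2.2 ?_)
  obtain ⟨w, hw1⟩ : ∃ w, ¬ (w ∈ y ↔ w ∈ v) := by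
    by_contra h'
    push Not at h'
    exact hne (Finset.ext h')
  have hw2 : w ∈ S := by
    by_contra h3
    exact hw1 ⟨fun h => absurd (hy h) h3, fun h => absurd (hv h) h3⟩
  obtain ⟨wW, wr⟩ := mem_filter.1 hw2
  obtain ⟨u', hu⟩ : ∃ u, ¬ (u ∈ s' w ↔ u ∈ s) := by
    by_contra h'
    push Not at h'
    exact p3 w (hW wW) (Finset.ext h')
  have huU : u' ∈ U := by
    by_contra h3
    exact hu ⟨fun h => absurd (p1 w h) h3, fun h => absurd (hs h) h3⟩
  lift u' to U using huU with u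
  have wR := (hWm w wW).1
  have n0 : c0 ∉ W := fun c => (hWm _ c).2.1 rfl
  have n1 : c1 ∉ W := fun c => (hWm _ c).2.2 rfl
  have n2 : a0 ∉ s := fun c => t1 (hs c)
  have A1 : (Gr v).Adj a0 w ↔ w ∉ y := by
    simp [hGr, th_RN r0 wR, τU v w a0 t1, d1, e1 w wW wr, e4 w wW wr]
  have A2 : (Gr v).Adj a1 w ↔ w ∈ y := by simp [hGr, th_RN r1 wR, e1 w wW wr, e4 w wW wr]
  have A3 : (Gr v).Adj u w ↔ (u.1 ∈ s' w ↔ w ∈ y) := by
    simp [hGr, th_RN (uR u) wR, e9 v w hw2 hw1, u1 u, e1 w wW wr, e4 w wW wr]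
  have A4 : (Gr v).Adj u a0 ↔ u.1 ∉ s := by
    simp [hGr, th_RR (uR u) r0 (u0 u), hsd, u1 u, n2, d1]
  have A5 : (Gr v).Adj u a1 ↔ u.1 ∈ s := by simp [hGr, th_RR (uR u) r1 (u1 u), hsd, u1 u]
  have A6 : (Gr v).Adj u c0 ↔ u.1 ∉ s := by
    simp [hGr, th_RN (uR u) r2, e10 v c0 fun c => n0 (mem_filter.1 c.1).1, u1 u, e3 c0 n0,
      e6 c0 n0, e7, d6]
  have A7 : (Gr v).Adj u c1 ↔ u.1 ∈ s := by
    simp [hGr, th_RN (uR u) r3, e10 v c1 fun c => n1 (mem_filter.1 c.1).1, u1 u, e3 c1 n1,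
      e6 c1 n1, e7]
  have A8 : ¬ (Gr v).Adj a0 c0 := by simp [hGr, th_RN r0 r2, e6 c0 n0, e8 a0 t1]
  have A9 : ¬ (Gr v).Adj a1 c1 := by simp [hGr, th_RN r1 r3, e6 c1 n1, e8 a1 t2]
  have A10 : ¬ (Gr v).Adj a0 a1 := by simp [hGr, th_RR r0 r1 d1, hsd, n2, d1]
  by_cases hus : u.1 ∈ s <;> by_cases hwy : w ∈ y
  · exact has_p4 (A2.2 hwy).symm (A5.2 hus).symm (A7.2 hus)
      (fun c => (prop2 hu).1 hus ((A3.1 c.symm).2 hwy)) A9 (th_NN wR r3)
  · exact has_p4 (A1.2 hwy) (A3.2 (iff_of_false ((prop2 hu).1 hus) hwy)).symm (A5.2 hus)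
      (fun c => A4.1 c.symm hus) (fun c => hwy (A2.1 c.symm)) A10
  · exact has_p4 (A2.2 hwy) (A3.2 (iff_of_true ((prop2 hu).2 hus) hwy)).symm (A4.2 hus)
      (fun c => hus (A5.1 c.symm)) (fun c => A1.1 c.symm hwy) fun c => A10 c.symm
  · exact has_p4 (A1.2 hwy).symm (A4.2 hus).symm (A6.2 hus)
      (fun c => hwy ((A3.1 c.symm).1 ((prop2 hu).2 hus))) A8 (th_NN wR r2)

theorem bound {n L K : ℕ} {f : Fin n → Set (Fin n) → List Bool}
    {g : (Fin n → List Bool) → Bool} (h : SolvesP4 f g L) (U : Finset (Fin n))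
    (hU : 2 * L + 3 ≤ U.card) (hF : ∀ u ∈ U, FewSec (23 * (L + 1) ^ 2) K u (f u)) :
    n ≤ 7000 * (L + 1) ^ 5 * (K + 1) := by
  by_contra hn
  obtain ⟨V, hV, hc⟩ := Finset.exists_subset_card_eq hU
  refine core (a := (L + 1) * V.card + 2) (T := 4 * V.card ^ 2 * K) h V hc
    (fun u hu => hF u (hV hu)) le_rfl (by rw [hc]; nlinarith) le_rfl ?_
  refine le_trans ?_ (not_le.1 hn).le
  rw [hc]
  have h1 : 2 * L + 3 ≤ 3 * (L + 1) := by omega
  have h2 : 1 ≤ (L + 1) ^ 3 := Nat.one_le_pow _ _ (by omega)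
  have h3 : (2 * L + 3) * (4 * (2 * L + 3) ^ 2 * K) + 1 ≤ 108 * (L + 1) ^ 3 * (K + 1) := by
    have := Nat.mul_le_mul_right (4 * K) (Nat.pow_le_pow_left h1 3)
    nlinarith
  have h4 : (L + 1) * (2 * L + 3) + 2 + 2 ≤ 7 * (L + 1) ^ 2 := by nlinarith
  have h5 : L + 1 ≤ (L + 1) ^ 5 * (K + 1) :=
    (Nat.le_self_pow (by omega) _).trans (Nat.le_mul_of_pos_right _ (by omega))
  have h6 := Nat.mul_le_mul h3 h4
  have e : 108 * (L + 1) ^ 3 * (K + 1) * (7 * (L + 1) ^ 2) = 756 * ((L + 1) ^ 5 * (K + 1)) := by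
    ring
  rw [e] at h6
  rw [mul_assoc 2, mul_assoc 7000]
  omega

end Pool.Agent.Lib.FS37
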