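import Pool.Agent.Lib.FS37.Colour

/-! Two side vectors with the same row messages. -/

set_option autoImplicit false

namespace Pool.Agent.Lib.FS37

open Finset
open scoped Classical

theorem pick {n K N : ℕ} {ι : Type} [Fintype ι] (hι : 1 ≤ Fintype.card ι) (S : Finset (Fin n))
    (Y Z : ι → Finset (Fin n)) (hY : ∀ u, Y u ⊆ S) (ψ : ι → Finset (Fin n) → Fin (2 ^ K))
    (h : ∀ u, ¬ Bad (2 * Fintype.card ι) (Z u) (ψ u) (Y u))
    (μ : ι → Finset (Fin n) → Finset (Fin n) → ℕ) (hμ : ∀ u x ζ, μ u x ζ < 2 ^ N)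
    (hS : N * Fintype.card ι + 2 ≤ S.card) :
    ∃ (y v : Finset (Fin n)) (ζ ξ : ι → Finset (Fin n)), y ⊆ S ∧ v ⊆ S ∧ y ≠ v ∧ ∀ u,
      ζ u ∩ Y u = y ∩ Y u ∧ ψ u (ζ u) = ψ u (ξ u) ∧ μ u y (ξ u) = μ u v (ξ u) := by
  simp only [Bad, not_forall, not_lt] at h
  choose κ hκ using h
  set Γ : ι → Finset (Finset (Fin n)) := fun u =>
    ((Z u).powerset.filter fun ζ => ψ u ζ = κ u).image (· ∩ Y u) with hΓ
  set D := S.powerset.filter fun y => ∀ u, y ∩ Y u ∈ Γ u with hD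
  have c0 : (1 : ℝ) ≤ Fintype.card ι := by exact_mod_cast hι
  have h1 : S.powerset.card ≤ D.card + ∑ u, (S.powerset.filter fun y => y ∩ Y u ∉ Γ u).card := by
    refine le_trans (card_le_card
      (t := D ∪ univ.biUnion fun u => S.powerset.filter fun y => y ∩ Y u ∉ Γ u) fun y hy => ?_)
      ((card_union_le _ _).trans (Nat.add_le_add_left card_biUnion_le _))
    by_cases hy' : ∀ u, y ∩ Y u ∈ Γ u
    · exact mem_union_left _ (mem_filter.2 ⟨hy, hy'⟩)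
    · obtain ⟨u, hu⟩ := not_forall.1 hy'
      exact mem_union_right _ (mem_biUnion.2 ⟨u, mem_univ _, mem_filter.2 ⟨hy, hu⟩⟩)
  have h2 := sum_le_card_nsmul univ _ _ fun u _ => miss S (Y u) (hY u) (Γ u)
    (image_subset_iff.2 fun ζ _ => mem_powerset.2 inter_subset_right) (hκ u)
  rw [card_univ, nsmul_eq_mul] at h2
  have h3 : (Fintype.card ι : ℝ) * (1 / ((2 * Fintype.card ι : ℕ) : ℝ) * 2 ^ S.card) =
      2 ^ S.card / 2 := by
    push_cast
    field_simp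
  rw [card_powerset] at h1
  have h4 : (2 : ℝ) ^ S.card ≤
      D.card + ∑ u, ((S.powerset.filter fun y => y ∩ Y u ∉ Γ u).card : ℝ) := by
    exact_mod_cast h1
  have h5 : (2 : ℝ) ^ S.card ≤ 2 * D.card := by linarith
  have h6 : 2 ^ S.card ≤ 2 * D.card := by exact_mod_cast h5
  have h7 : 2 ^ (N * Fintype.card ι + 2) ≤ 2 ^ S.card := Nat.pow_le_pow_right (by omega) hS
  have h8 : 0 < 2 ^ (N * Fintype.card ι) := by positivity
  rw [pow_add] at h7
  have ex : ∀ y ∈ D, ∀ u, ∃ ζ, ψ u ζ = κ u ∧ ζ ∩ Y u = y ∩ Y u := fun y hy u => by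
    obtain ⟨ζ, a, b⟩ := mem_image.1 ((mem_filter.1 hy).2 u)
    exact ⟨ζ, (mem_filter.1 a).2, b⟩
  obtain ⟨y₀, hy₀⟩ : D.Nonempty := card_pos.1 (by omega)
  choose ξ hξ _ using ex y₀ hy₀
  obtain ⟨y, hy, v, hv, hne, e⟩ := exists_ne_map_eq_of_card_lt_of_maps_to (s := D)
    (t := Fintype.piFinset fun _ : ι => range (2 ^ N)) (f := fun y u => μ u y (ξ u)) (by
      rw [Fintype.card_piFinset, prod_const, card_range, card_univ, ← pow_mul]
      omega) fun y _ => mem_coe.2 (Fintype.mem_piFinset.2 fun u => mem_range.2 (hμ u _ _))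
  choose ζ z1 z2 using ex y hy
  exact ⟨y, v, ζ, ξ, mem_powerset.1 (mem_filter.1 hy).1, mem_powerset.1 (mem_filter.1 hv).1, hne,
    fun u => ⟨z2 u, (z1 u).trans (hξ u).symm, congrFun e u⟩⟩

end Pool.Agent.Lib.FS37
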